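import Mathlib
import Pool.Agent.Results.MP_65fbb9_lc.Coincidence

/-! The two-candidate-lists argument of `Coincidence` for arbitrary bounds `2^G`, `2^H`. -/

set_option autoImplicit false

namespace Pool.Agent.Y529.DC

open Pool.Agent.Results.MP_65fbb9_lc.Coincidence

/-- cumulative sums -/
def cum (h : ℕ → ℕ) (m : ℕ) : ℕ := nsum m h

theorem cum_succ (h : ℕ → ℕ) (m : ℕ) : cum h (m + 1) = cum h m + h m := rfl

theorem cum_mono (h : ℕ → ℕ) : Monotone (cum h) :=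
  monotone_nat_of_le_succ fun m => by rw [cum_succ]; omega

/-- code of the values `z 0, ..., z (N - 1)` -/
def code' (h z : ℕ → ℕ) (N : ℕ) : ℕ := nsum N fun m => z m * 2 ^ cum h m

/-- decoding -/
def dig' (h : ℕ → ℕ) (c m : ℕ) : ℕ := c / 2 ^ cum h m % 2 ^ h m

theorem code'_succ (h z : ℕ → ℕ) (N : ℕ) :
    code' h z (N + 1) = code' h z N + z N * 2 ^ cum h N := rfl

theorem code'_lt {h z : ℕ → ℕ} (hz : ∀ m, z m < 2 ^ h m) (N : ℕ) :
    code' h z N < 2 ^ cum h N := by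
  induction N with
  | zero => simp [code', nsum]
  | succ N ih =>
    rw [code'_succ, cum_succ, pow_add]
    have h3 : z N + 1 ≤ 2 ^ h N := hz N
    calc code' h z N + z N * 2 ^ cum h N < 2 ^ cum h N + z N * 2 ^ cum h N := by omega
      _ = 2 ^ cum h N * (z N + 1) := by ring
      _ ≤ 2 ^ cum h N * 2 ^ h N := Nat.mul_le_mul_left _ h3

theorem dig'_code' {h z : ℕ → ℕ} (hz : ∀ m, z m < 2 ^ h m) (N m : ℕ) (h2 : m < N) :
    dig' h (code' h z N) m = z m := by
  induction N with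
  | zero => omega
  | succ N ih =>
    rw [code'_succ]
    unfold dig'
    rcases Nat.lt_or_ge m N with hm | hm
    · have h3 : cum h m + h m ≤ cum h N := by
        rw [← cum_succ]
        exact cum_mono h hm
      obtain ⟨d, hd⟩ : ∃ d, cum h N = cum h m + (h m + d) :=
        ⟨cum h N - (cum h m + h m), by omega⟩
      have e1 : code' h z N + z N * 2 ^ cum h N
          = code' h z N + 2 ^ cum h m * (2 ^ h m * (z N * 2 ^ d)) := by
        rw [hd, pow_add, pow_add]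
        ring
      rw [e1, Nat.add_mul_div_left _ _ (by positivity), Nat.add_mul_mod_self_left]
      exact ih hm
    · have e : m = N := by omega
      subst e
      rw [Nat.add_mul_div_right _ _ (by positivity), Nat.div_eq_of_lt (code'_lt hz m), zero_add]
      exact Nat.mod_eq_of_lt (hz _)

theorem ccum {α : Type} [Primcodable α] {O : Set (ℕ →. ℕ)} {h : ℕ → ℕ} (hh : Computable h)
    {f : α → ℕ} (hf : ComputableIn O f) : ComputableIn O fun a => cum h (f a) :=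
  nsum_comp hf (ci_comp (f := h) hh.computableIn ci_snd)

theorem ccode' {α : Type} [Primcodable α] {O : Set (ℕ →. ℕ)} {h z : ℕ → ℕ} (hh : Computable h)
    (hz : ComputableIn O z) {f : α → ℕ} (hf : ComputableIn O f) :
    ComputableIn O fun a => code' h z (f a) :=
  nsum_comp hf (cmul (ci_comp hz ci_snd) (cpw 2 (ccum hh ci_snd)))

theorem cdig' {α : Type} [Primcodable α] {O : Set (ℕ →. ℕ)} {h : ℕ → ℕ} (hh : Computable h)
    {f g : α → ℕ} (hf : ComputableIn O f) (hg : ComputableIn O g) :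
    ComputableIn O fun a => dig' h (f a) (g a) :=
  cmod (cdiv hf (cpw 2 (ccum hh hg))) (cpw 2 (ci_comp (f := h) hh.computableIn hg))

/-- the proposals for the target `z` -/
def cz' (h z : ℕ → ℕ) (j : ℕ) : ℕ := code' h z (2 ^ (j + 2))

theorem ccz' {O : Set (ℕ →. ℕ)} {h z : ℕ → ℕ} (hh : Computable h) (hz : ComputableIn O z) :
    ComputableIn O (cz' h z) :=
  ccode' hh hz (f := fun j : ℕ => 2 ^ (j + 2))
    (cpw 2 (f := fun j : ℕ => j + 2) (cadd ComputableIn.id (cconst 2)))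

theorem dig_cz' {h z : ℕ → ℕ} (hz : ∀ m, z m < 2 ^ h m) (j m : ℕ) (_h1 : 2 ^ (j + 1) ≤ m)
    (h2 : m < 2 ^ (j + 1) + 2 ^ (j + 1)) : dig' h (cz' h z j) m = z m := by
  have h3 : 2 ^ (j + 2) = 2 ^ (j + 1) + 2 ^ (j + 1) := by ring
  exact dig'_code' hz _ m (by omega)

theorem pair_bound' {G h z1 z2 : ℕ → ℕ} (mG : Monotone G) (h1 : ∀ m, z1 m < 2 ^ h m)
    (h2 : ∀ m, z2 m < 2 ^ h m) {j n : ℕ} (hj : 2 * cum h (2 ^ (j + 2)) ≤ G (4 ^ j))
    (hn : 4 ^ j ≤ n) : Nat.pair (cz' h z1 j) (cz' h z2 j) < 2 ^ G n := by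
  have h3 : cz' h z1 j < 2 ^ cum h (2 ^ (j + 2)) := code'_lt h1 _
  have h4 : cz' h z2 j < 2 ^ cum h (2 ^ (j + 2)) := code'_lt h2 _
  calc Nat.pair (cz' h z1 j) (cz' h z2 j) < (max (cz' h z1 j) (cz' h z2 j) + 1) ^ 2 :=
        Nat.pair_lt_max_add_one_sq _ _
    _ ≤ (2 ^ cum h (2 ^ (j + 2))) ^ 2 := Nat.pow_le_pow_left (by omega) 2
    _ = 2 ^ (2 * cum h (2 ^ (j + 2))) := by rw [← pow_mul, mul_comm]
    _ ≤ 2 ^ G n := Nat.pow_le_pow_right (by norm_num) (hj.trans (mG hn))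

theorem main_step {O : Set (ℕ →. ℕ)} {G H : ℕ → ℕ} (hG : Computable G) (mG : Monotone G)
    (hH : Computable H) {j0 : ℕ} (hb : ∀ j ≥ j0, 2 * cum H (2 ^ (j + 2)) ≤ G (4 ^ j))
    {x : ℕ → ℕ} (hx : ComputableIn O x) (hI : Ioe (fun n => 2 ^ G n) x) :
    ∃ g, ComputableIn O g ∧ Ioe (fun n => 2 ^ H n) g := by
  have hx1 : ComputableIn O fun n => (Nat.unpair (x n)).1 := cunl hx
  have hx2 : ComputableIn O fun n => (Nat.unpair (x n)).2 := cunr hx
  obtain ⟨g1, hg1⟩ : ∃ g1, g1 = sel (r1 x) (fun n m => dig' H (Nat.unpair (x n)).1 m) := ⟨_, rfl⟩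
  have hg1c : ComputableIn O g1 := by
    rw [hg1]
    refine csel (cr1 hx) ?_
    exact cdig' hH (ci_comp (f := fun n => (Nat.unpair (x n)).1) hx1 ci_fst) ci_snd
  by_cases hcase : Ioe (fun n => 2 ^ H n) g1
  · exact ⟨g1, hg1c, hcase⟩
  unfold Ioe at hcase
  push Not at hcase
  obtain ⟨z1, hz1c, hz1b, hz1⟩ := hcase
  rw [Filter.eventually_atTop] at hz1
  obtain ⟨M, hM⟩ := hz1
  -- the code of `z1` is proposed at most `2^(j+1)` times
  have key : ∀ j, M ≤ 2 ^ (j + 1) → (RS (r2 x (cz' H z1)) j).card ≤ 2 ^ (j + 1) := by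
    intro j hj
    rw [card_r2]
    by_contra hc
    push Not at hc
    have hne : ∃ k, 4 ^ j ≤ k ∧ (Nat.unpair (x k)).1 = cz' H z1 j := by
      rw [supp_eq] at hc
      have h1 : 0 < ((Finset.Ico (4 ^ j) (4 ^ (j + 1))).filter
        fun k => fx x j k = true ∧ (Nat.unpair (x k)).1 = cz' H z1 j).card := by omega
      obtain ⟨k, hk⟩ := Finset.card_pos.1 h1
      rw [Finset.mem_filter, Finset.mem_Ico] at hk
      exact ⟨k, hk.1.1, hk.2.2⟩
    have hlt : Nat.find hne < 4 ^ (j + 1) := by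
      rw [supp_eq] at hc
      have h1 : 0 < ((Finset.Ico (4 ^ j) (4 ^ (j + 1))).filter
        fun k => fx x j k = true ∧ (Nat.unpair (x k)).1 = cz' H z1 j).card := by omega
      obtain ⟨k, hk⟩ := Finset.card_pos.1 h1
      rw [Finset.mem_filter, Finset.mem_Ico] at hk
      exact lt_of_le_of_lt (Nat.find_min' hne ⟨hk.1.1, hk.2.2⟩) hk.1.2
    obtain ⟨n, hn⟩ : ∃ n, n = Nat.find hne := ⟨_, rfl⟩
    have hn1 := Nat.find_spec hne
    have hn2 : ∀ k < n, 4 ^ j ≤ k → (Nat.unpair (x k)).1 ≠ cz' H z1 j := by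
      intro k hk h1 h2
      rw [hn] at hk
      exact Nat.find_min hne hk ⟨h1, h2⟩
    rw [← hn] at hn1 hlt
    have hnR : n ∈ RS (r1 x) j := by
      unfold RS r1
      rw [Finset.mem_filter, Finset.mem_Ico, Bool.and_eq_true, decide_eq_true_eq, fa_iff, hn1.2]
      exact ⟨⟨hn1.1, hlt⟩, hn2, hc⟩
    have h1 := sel_eq (r1 x) (fun n m => dig' H (Nat.unpair (x n)).1 m) j n hnR (card_r1 x j)
    have h2 := lt_of_lt_of_le (rk_lt (r1 x) j n hnR) (card_r1 x j)
    rw [← hg1] at h1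
    have h3 := hM (2 ^ (j + 1) + rk (r1 x) j n) (by omega)
    apply h3
    rw [h1, hn1.2]
    exact dig_cz' hz1b j _ (by omega) (by omega)
  have hz1c' : ComputableIn O z1 := hz1c.computableIn
  obtain ⟨g2, hg2⟩ : ∃ g2, g2 = sel (r2 x (cz' H z1)) (fun n m => dig' H (Nat.unpair (x n)).2 m) :=
    ⟨_, rfl⟩
  refine ⟨g2, ?_, ?_⟩
  · rw [hg2]
    refine csel (cr2 hx (ccz' hH hz1c')) ?_
    exact cdig' hH (ci_comp (f := fun n => (Nat.unpair (x n)).2) hx2 ci_fst) ci_snd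
  · intro z2 hz2c hz2b
    have hz1e : ComputableIn ∅ z1 := hz1c.computableIn
    have hz2e : ComputableIn ∅ z2 := hz2c.computableIn
    obtain ⟨y, hy⟩ : ∃ y : ℕ → ℕ, y = fun n =>
        bif decide (Nat.pair (cz' H z1 (lgb 4 n)) (cz' H z2 (lgb 4 n)) < 2 ^ G n) then
          Nat.pair (cz' H z1 (lgb 4 n)) (cz' H z2 (lgb 4 n)) else 0 := ⟨_, rfl⟩
    have hyc : Computable y := by
      apply computable_of_ci
      have h1 : ComputableIn ∅ fun n => cz' H z1 (lgb 4 n) :=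
        ci_comp (f := cz' H z1) (ccz' hH hz1e) (clgb 4 (f := fun m : ℕ => m) ComputableIn.id)
      have h2 : ComputableIn ∅ fun n => cz' H z2 (lgb 4 n) :=
        ci_comp (f := cz' H z2) (ccz' hH hz2e) (clgb 4 (f := fun m : ℕ => m) ComputableIn.id)
      have h3 : ComputableIn ∅ fun n => Nat.pair (cz' H z1 (lgb 4 n)) (cz' H z2 (lgb 4 n)) :=
        cpair h1 h2
      have h4 : ComputableIn ∅ fun n : ℕ => 2 ^ G n :=
        cpw 2 (f := G) hG.computableIn
      rw [hy]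
      exact ccond (clt h3 h4) h3 (cconst 0)
    have hyb : ∀ n, y n < 2 ^ G n := by
      intro n
      rw [hy]
      by_cases h : Nat.pair (cz' H z1 (lgb 4 n)) (cz' H z2 (lgb 4 n)) < 2 ^ G n
      · simp [h]
      · simp [h]
    have hfr := hI y hyc hyb
    rw [Filter.frequently_atTop] at hfr ⊢
    intro N
    obtain ⟨n, hn, hxy⟩ := hfr (4 ^ (N + M + j0))
    obtain ⟨j, hj⟩ : ∃ j, j = Nat.log 4 n := ⟨_, rfl⟩
    have hn0 : n ≠ 0 := by
      have : 0 < 4 ^ (N + M + j0) := by positivity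
      omega
    have hj1 : 4 ^ j ≤ n := by rw [hj]; exact Nat.pow_log_le_self 4 hn0
    have hj2 : n < 4 ^ (j + 1) := by rw [hj]; exact Nat.lt_pow_succ_log_self (by norm_num) n
    have hj3 : N + M + j0 ≤ j := by
      rw [hj]
      exact Nat.le_log_of_pow_le (by norm_num) hn
    have hlg : lgb 4 n = j := lgb_eq (by norm_num) hj1 hj2
    have hval : x n = Nat.pair (cz' H z1 j) (cz' H z2 j) := by
      rw [hxy, hy]
      show (bif decide (Nat.pair (cz' H z1 (lgb 4 n)) (cz' H z2 (lgb 4 n)) < 2 ^ G n) then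
          Nat.pair (cz' H z1 (lgb 4 n)) (cz' H z2 (lgb 4 n)) else 0) = _
      rw [hlg]
      have := pair_bound' mG hz1b hz2b (hb j (by omega)) hj1
      simp [this]
    have hne : ∃ k, 4 ^ j ≤ k ∧ x k = Nat.pair (cz' H z1 j) (cz' H z2 j) := ⟨n, hj1, hval⟩
    have hlt : Nat.find hne < 4 ^ (j + 1) := lt_of_le_of_lt (Nat.find_min' hne ⟨hj1, hval⟩) hj2
    obtain ⟨k, hk⟩ : ∃ k, k = Nat.find hne := ⟨_, rfl⟩
    have hk1 := Nat.find_spec hne
    have hk2 : ∀ l < k, 4 ^ j ≤ l → x l ≠ Nat.pair (cz' H z1 j) (cz' H z2 j) := by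
      intro l hl h1 h2
      rw [hk] at hl
      exact Nat.find_min hne hl ⟨h1, h2⟩
    rw [← hk] at hk1 hlt
    have hkR : k ∈ RS (r2 x (cz' H z1)) j := by
      unfold RS r2
      rw [Finset.mem_filter, Finset.mem_Ico, Bool.and_eq_true, decide_eq_true_eq, fx_iff, hk1.2,
        Nat.unpair_pair]
      exact ⟨⟨hk1.1, hlt⟩, hk2, rfl⟩
    have hM2 : N + M + j0 < 2 ^ (j + 1) :=
      lt_of_le_of_lt hj3 (lt_trans (Nat.lt_succ_self j) (Nat.lt_two_pow_self))
    have hcard := key j (by omega)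
    have h1 := sel_eq (r2 x (cz' H z1)) (fun n m => dig' H (Nat.unpair (x n)).2 m) j k hkR hcard
    have h2 := lt_of_lt_of_le (rk_lt (r2 x (cz' H z1)) j k hkR) hcard
    rw [← hg2] at h1
    refine ⟨2 ^ (j + 1) + rk (r2 x (cz' H z1)) j k, by omega, ?_⟩
    rw [h1, hk1.2, Nat.unpair_pair]
    exact dig_cz' hz2b j _ (by omega) (by omega)

end Pool.Agent.Y529.DC
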