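import Mathlib
import Pool.Agent.Y529.DC.Step

/-! `D(≠*, 2^G) ⊆ D(≠*, 2^H)` when `H(n) ≤ G(n^k)`. -/

set_option autoImplicit false

namespace Pool.Agent.Y529.DC

open Filter
open Pool.Agent.Results.MP_65fbb9_lc.Coincidence

/-- a larger bound gives a smaller class -/
theorem dneq_mono {g h : ℕ → ℕ} (hle : ∀ᶠ n in atTop, h n ≤ g n) :
    DNeq (fun n => 2 ^ g n) ⊆ DNeq (fun n => 2 ^ h n) := by
  obtain ⟨N, hN⟩ := eventually_atTop.1 hle
  rintro A ⟨x, hx, hxy⟩
  refine ⟨x, hx, ?_⟩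
  intro y hy hyb
  have hy' : Computable fun n => bif decide (N ≤ n) then y n else 0 := by
    apply computable_of_ci
    exact ccond (cle (cconst N) ComputableIn.id) hy.computableIn (cconst 0)
  have h := hxy _ hy' (by
    intro n
    by_cases hn : N ≤ n
    · simp only [hn, decide_true, cond_true]
      exact lt_of_lt_of_le (hyb n) (Nat.pow_le_pow_right (by norm_num) (hN n hn))
    · simp [hn])
  refine (h.and_eventually (Filter.eventually_ge_atTop N)).mono ?_
  rintro n ⟨h1, h2⟩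
  simpa [h2] using h1

/-- finite case distinctions are computable -/
theorem ccases {C : ℕ} (y : ℕ → ℕ → ℕ) (hy : ∀ r, Computable (y r)) (B : ℕ) :
    ComputableIn ∅ fun m : ℕ =>
      ∑ r ∈ Finset.range B, ind (decide (m % C = r)) * y r (m / C) := by
  induction B with
  | zero =>
    have h : (fun m : ℕ => ∑ r ∈ Finset.range 0, ind (decide (m % C = r)) * y r (m / C))
        = fun _ => 0 := by
      funext m
      simp
    rw [h]
    exact cconst 0
  | succ B ih =>
    have h : (fun m : ℕ => ∑ r ∈ Finset.range (B + 1), ind (decide (m % C = r)) * y r (m / C))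
        = fun m : ℕ => (∑ r ∈ Finset.range B, ind (decide (m % C = r)) * y r (m / C))
          + ind (decide (m % C = B)) * y B (m / C) := by
      funext m
      rw [Finset.sum_range_succ]
    rw [h]
    exact cadd ih (cmul (cind (ceqN (cmod ComputableIn.id (cconst C)) (cconst B)))
      (ci_compC (hy B) (cdiv ComputableIn.id (cconst C))))

/-- linear changes of the argument -/
theorem dneq_lin {G : ℕ → ℕ} (mG : Monotone G) {C : ℕ} (hC : 0 < C) :
    DNeq (fun n => 2 ^ G n) ⊆ DNeq (fun n => 2 ^ G (C * n)) := by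
  classical
  rintro A ⟨x, hx, hxy⟩
  by_contra hA
  have h1 : ∀ r : ℕ, ∃ y : ℕ → ℕ, Computable y ∧ (∀ n, y n < 2 ^ G (C * n)) ∧
      ∀ᶠ n in atTop, x (C * n + r) ≠ y n := by
    intro r
    by_contra hc
    apply hA
    refine ⟨fun n => x (C * n + r), ci_comp (f := x) hx
      (cadd (cmul (cconst C) ComputableIn.id) (cconst r)), fun y hy hyb => ?_⟩
    by_contra hc2
    exact hc ⟨y, hy, hyb, by simpa [Filter.Frequently] using hc2⟩
  choose y hy hyb hyx using h1
  have hdiv : Tendsto (fun n : ℕ => n / C) atTop atTop := Nat.tendsto_div_const_atTop hC.ne'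
  have hval : ∀ m, ∑ r ∈ Finset.range C, ind (decide (m % C = r)) * y r (m / C)
      = y (m % C) (m / C) := by
    intro m
    rw [Finset.sum_eq_single (m % C)]
    · rw [ind_true (by simp), one_mul]
    · intro b _ hb
      rw [ind_false (by simpa using fun h => hb h.symm), zero_mul]
    · intro h
      exact absurd (Finset.mem_range.2 (Nat.mod_lt m hC)) h
  have hfr := hxy (fun m => ∑ r ∈ Finset.range C, ind (decide (m % C = r)) * y r (m / C))
    (computable_of_ci (ccases y hy C)) (by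
      intro m
      rw [hval]
      exact (hyb _ _).trans_le (Nat.pow_le_pow_right (by norm_num) (mG (Nat.mul_div_le m C))))
  have h2 : ∀ᶠ n in atTop, ∀ r ∈ Finset.range C, x (C * n + r) ≠ y r n :=
    (eventually_all_finset _).2 fun r _ => hyx r
  obtain ⟨m, hm1, hm2⟩ := (hfr.and_eventually (hdiv.eventually h2)).exists
  have h3 := hm2 (m % C) (Finset.mem_range.2 (Nat.mod_lt m hC))
  rw [Nat.div_add_mod] at h3
  apply h3
  rw [hm1]
  exact hval m

/-- regular superpolynomial growth -/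
def SP (G : ℕ → ℕ) : Prop := ∃ C : ℕ, ∀ᶠ n in atTop, n * G n ≤ G (C * n)

theorem SP.sq {G : ℕ → ℕ} (mG : Monotone G) (h : SP G) : SP fun n => G (n ^ 2) := by
  obtain ⟨C, hC⟩ := h
  refine ⟨C + 1, ?_⟩
  have hsq : Tendsto (fun n : ℕ => n ^ 2) atTop atTop := tendsto_pow_atTop (by norm_num)
  filter_upwards [hsq.eventually hC, eventually_ge_atTop 1] with n h1 h2
  calc n * G (n ^ 2) ≤ n ^ 2 * G (n ^ 2) := Nat.mul_le_mul_right _ (Nat.le_self_pow (by norm_num) n)
    _ ≤ G (C * n ^ 2) := h1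
    _ ≤ G (((C + 1) * n) ^ 2) := mG (by nlinarith [Nat.zero_le (C * n), Nat.zero_le (C * n ^ 2)])

theorem cum_le {h : ℕ → ℕ} {N B : ℕ} (hB : ∀ m < N, h m ≤ B) : cum h N ≤ N * B := by
  unfold cum
  rw [nsum_eq]
  calc ∑ k ∈ Finset.range N, h k ≤ ∑ _k ∈ Finset.range N, B :=
        Finset.sum_le_sum fun m hm => hB m (Finset.mem_range.1 hm)
    _ = N * B := by simp

theorem dneq_sq {G : ℕ → ℕ} (hG : Computable G) (mG : Monotone G) (h : SP G) :
    DNeq (fun n => 2 ^ G n) ⊆ DNeq (fun n => 2 ^ G (n ^ 2)) := by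
  obtain ⟨C, hC⟩ := h
  obtain ⟨N, hN⟩ := eventually_atTop.1 hC
  obtain ⟨s, hs⟩ : ∃ s, C + N ≤ 4 ^ s := ⟨C + N, (Nat.lt_pow_self (by norm_num)).le⟩
  obtain ⟨K, hK⟩ : ∃ K, K = 2 ^ (s + 2) := ⟨_, rfl⟩
  have hKpos : 0 < K := by rw [hK]; positivity
  obtain ⟨H, hH⟩ : ∃ H : ℕ → ℕ, H = fun m => G ((m / K) ^ 2) := ⟨_, rfl⟩
  have hHc : Computable H := by
    apply computable_of_ci
    rw [hH]
    refine ci_compC hG ?_
    have h1 : ComputableIn ∅ fun m : ℕ => (m / K) * (m / K) :=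
      cmul (cdiv ComputableIn.id (cconst K)) (cdiv ComputableIn.id (cconst K))
    exact h1.of_eq fun m => by simp only [pow_two]
  have mH : Monotone H := by
    rw [hH]
    intro a b hab
    exact mG (Nat.pow_le_pow_left (Nat.div_le_div_right hab) 2)
  have hstep : DNeq (fun n => 2 ^ G n) ⊆ DNeq (fun n => 2 ^ H n) := by
    rintro A ⟨x, hx, hxy⟩
    obtain ⟨g, hg1, hg2⟩ := main_step hG mG hHc (j0 := 2 * s + 3) (by
      intro j hj
      obtain ⟨t, ht⟩ : ∃ t, j = t + s := ⟨j - s, by omega⟩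
      have h1 : ∀ m < 2 ^ (j + 2), H m ≤ G (4 ^ t) := by
        intro m hm
        rw [hH]
        apply mG
        have h2 : m / K ≤ 2 ^ t := by
          have h3 : 2 ^ (j + 2) / K = 2 ^ t := by
            rw [hK, ht, show t + s + 2 = t + (s + 2) by ring, pow_add]
            exact Nat.mul_div_cancel _ (by positivity)
          rw [← h3]
          exact Nat.div_le_div_right hm.le
        calc (m / K) ^ 2 ≤ (2 ^ t) ^ 2 := Nat.pow_le_pow_left h2 2
          _ = 4 ^ t := by rw [← pow_mul, mul_comm, pow_mul]; norm_num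
      have h4 : N ≤ 4 ^ t := by
        have : 4 ^ s ≤ 4 ^ t := Nat.pow_le_pow_right (by norm_num) (by omega)
        omega
      have h5 := hN (4 ^ t) h4
      have h6 : 2 * 2 ^ (j + 2) ≤ 4 ^ t := by
        have : (4 : ℕ) ^ t = 2 ^ (2 * t) := by rw [pow_mul]; norm_num
        rw [this, ← pow_succ']
        exact Nat.pow_le_pow_right (by norm_num) (by omega)
      have h7 : C * 4 ^ t ≤ 4 ^ j := by
        rw [ht, pow_add, mul_comm]
        exact Nat.mul_le_mul_left _ (by omega)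
      calc 2 * cum H (2 ^ (j + 2)) ≤ 2 * (2 ^ (j + 2) * G (4 ^ t)) :=
            Nat.mul_le_mul_left _ (cum_le h1)
        _ = 2 * 2 ^ (j + 2) * G (4 ^ t) := by ring
        _ ≤ 4 ^ t * G (4 ^ t) := Nat.mul_le_mul_right _ h6
        _ ≤ G (C * 4 ^ t) := h5
        _ ≤ G (4 ^ j) := mG h7) hx hxy
    exact ⟨g, hg1, hg2⟩
  refine hstep.trans ((dneq_lin mH hKpos).trans (Eq.subset ?_))
  rw [hH]
  simp only [Nat.mul_div_cancel_left _ hKpos]

theorem dneq_iter {G : ℕ → ℕ} (hG : Computable G) (mG : Monotone G) (h : SP G) (i : ℕ) :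
    DNeq (fun n => 2 ^ G n) ⊆ DNeq (fun n => 2 ^ G (n ^ 2 ^ i)) := by
  induction i generalizing G with
  | zero => simp
  | succ i ih =>
    have hG' : Computable fun n => G (n ^ 2) := by
      apply computable_of_ci
      refine ci_compC hG ?_
      have h1 : ComputableIn ∅ fun m : ℕ => m * m := cmul ComputableIn.id ComputableIn.id
      exact h1.of_eq fun m => by simp only [pow_two]
    have mG' : Monotone fun n => G (n ^ 2) := fun a b hab => mG (Nat.pow_le_pow_left hab 2)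
    refine (dneq_sq hG mG h).trans ((ih hG' mG' (h.sq mG)).trans (Eq.subset ?_))
    congr 1
    funext n
    rw [← pow_mul, pow_succ]

/-- `D(≠*, 2^G) ⊆ D(≠*, 2^h)` when `h(n) ≤ G(n^k)` for almost all `n` -/
theorem dneq_poly {G h : ℕ → ℕ} (hG : Computable G) (mG : Monotone G) (hS : SP G) {k : ℕ}
    (hle : ∀ᶠ n in atTop, h n ≤ G (n ^ k)) :
    DNeq (fun n => 2 ^ G n) ⊆ DNeq (fun n => 2 ^ h n) := by
  refine (dneq_iter hG mG hS k).trans (dneq_mono ?_)
  filter_upwards [hle, eventually_ge_atTop 1] with n h1 h2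
  exact h1.trans (mG (Nat.pow_le_pow_right h2 Nat.lt_two_pow_self.le))

/-! ### Exponential functions -/

theorem sp_two_pow : SP fun n => 2 ^ n := by
  refine ⟨2, Eventually.of_forall fun n => ?_⟩
  calc n * 2 ^ n ≤ 2 ^ n * 2 ^ n := Nat.mul_le_mul_right _ Nat.lt_two_pow_self.le
    _ = 2 ^ (2 * n) := by rw [← pow_add, two_mul]

theorem dsim_eq : DSim 0 = DNeq (fun n => 2 ^ (2 ^ n)) := result.1

theorem upper {h : ℕ → ℕ} {k : ℕ} (hle : ∀ᶠ n in atTop, h n ≤ 2 ^ (n ^ k)) :
    DSim 0 ⊆ DNeq (fun n => 2 ^ h n) := by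
  rw [dsim_eq]
  exact dneq_poly (G := fun n => 2 ^ n) (computable_of_ci (cpw 2 ComputableIn.id))
    (fun _ _ h => Nat.pow_le_pow_right (by norm_num) h) sp_two_pow hle

/-- the `k`-th root -/
def rt (k n : ℕ) : ℕ := nsum n fun t => ind (decide (pwk k (t + 1) ≤ n))
  where
  /-- powers with fixed exponent -/
  pwk (k t : ℕ) : ℕ := Nat.rec (motive := fun _ => ℕ) 1 (fun _ r => t * r) k

theorem pwk_eq (k t : ℕ) : rt.pwk k t = t ^ k := by
  induction k with
  | zero => rfl
  | succ k ih =>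
    have : rt.pwk (k + 1) t = t * rt.pwk k t := rfl
    rw [this, ih, pow_succ, Nat.mul_comm]

theorem cpwk (k : ℕ) {α : Type} [Primcodable α] {O : Set (ℕ →. ℕ)} {f : α → ℕ}
    (hf : ComputableIn O f) : ComputableIn O fun a => (f a) ^ k := by
  induction k with
  | zero => exact (cconst 1).of_eq fun a => by simp
  | succ k ih => exact (cmul ih hf).of_eq fun a => by simp only [pow_succ]

theorem rt_eq {k n t : ℕ} (hk : 1 ≤ k) (h1 : t ^ k ≤ n) (h2 : n < (t + 1) ^ k) : rt k n = t := by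
  unfold rt
  rw [nsum_ind]
  have h3 : (Finset.range n).filter (fun l => decide (rt.pwk k (l + 1) ≤ n) = true)
      = Finset.range t := by
    ext l
    simp only [Finset.mem_filter, Finset.mem_range, decide_eq_true_eq, pwk_eq]
    constructor
    · rintro ⟨-, h⟩
      by_contra hc
      have : (t + 1) ^ k ≤ (l + 1) ^ k := Nat.pow_le_pow_left (by omega) k
      omega
    · intro h
      have h4 : (l + 1) ^ k ≤ t ^ k := Nat.pow_le_pow_left (by omega) k
      have h5 : l + 1 ≤ (l + 1) ^ k := Nat.le_self_pow (by omega) _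
      exact ⟨by omega, by omega⟩
  rw [h3, Finset.card_range]

theorem exists_rt {k : ℕ} (hk : 1 ≤ k) (n : ℕ) : (rt k n) ^ k ≤ n ∧ n < (rt k n + 1) ^ k := by
  classical
  have hex : ∃ t, n < (t + 1) ^ k := ⟨n, lt_of_lt_of_le (Nat.lt_succ_self n)
    (Nat.le_self_pow (by omega) _)⟩
  obtain ⟨t, ht⟩ : ∃ t, t = Nat.find hex := ⟨_, rfl⟩
  have h1 := Nat.find_spec hex
  rw [← ht] at h1
  have h2 : t ^ k ≤ n := by
    rcases Nat.eq_zero_or_pos t with h0 | h0
    · rw [h0, zero_pow (by omega)]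
      omega
    · have h3 := Nat.find_min hex (m := t - 1) (by omega)
      rw [Nat.sub_add_cancel h0] at h3
      omega
  rw [rt_eq hk h2 h1]
  exact ⟨h2, h1⟩

theorem rt_mono {k : ℕ} (hk : 1 ≤ k) : Monotone (rt k) := by
  intro a b hab
  by_contra hc
  push Not at hc
  have h1 := (exists_rt hk b).2
  have h2 := (exists_rt hk a).1
  have h3 : (rt k b + 1) ^ k ≤ (rt k a) ^ k := Nat.pow_le_pow_left hc k
  omega

theorem crt {k : ℕ} : Computable (rt k) := by
  apply computable_of_ci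
  have h1 : ComputableIn ∅ fun n : ℕ => nsum n fun t => ind (decide ((t + 1) ^ k ≤ n)) :=
    nsum_comp (g := fun n : ℕ => n) (q := fun n t => ind (decide ((t + 1) ^ k ≤ n)))
      ComputableIn.id (cind (cle (cpwk k (cadd ci_snd (cconst 1))) ci_fst))
  refine h1.of_eq fun n => ?_
  unfold rt
  simp only [pwk_eq]

theorem sp_root {k : ℕ} (hk : 1 ≤ k) : SP fun n => 2 ^ rt k n := by
  refine ⟨3 ^ k, ?_⟩
  have h1 : ∀ᶠ t : ℕ in atTop, (t + 1) ^ k ≤ 2 ^ (2 * t) := by
    have h2 : Tendsto (fun t : ℕ => (t : ℝ) ^ k / (4 : ℝ) ^ t) atTop (nhds 0) :=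
      tendsto_pow_const_div_const_pow_of_one_lt k (by norm_num)
    have h3 : (0 : ℝ) < 1 / 2 ^ k := by positivity
    filter_upwards [h2.eventually (gt_mem_nhds h3), eventually_ge_atTop 1] with t ht ht1
    rw [div_lt_div_iff₀ (by positivity) (by positivity), one_mul] at ht
    have h4 : ((t ^ k * 2 ^ k : ℕ) : ℝ) < ((4 ^ t : ℕ) : ℝ) := by push_cast; exact ht
    have h5 : t ^ k * 2 ^ k < 4 ^ t := by exact_mod_cast h4
    calc (t + 1) ^ k ≤ (t * 2) ^ k := Nat.pow_le_pow_left (by omega) k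
      _ = t ^ k * 2 ^ k := mul_pow _ _ _
      _ ≤ 4 ^ t := h5.le
      _ = 2 ^ (2 * t) := by rw [pow_mul]; norm_num
  have hrt : Tendsto (rt k) atTop atTop := by
    refine tendsto_atTop.2 fun b => ?_
    filter_upwards [eventually_ge_atTop (b ^ k)] with n hn
    have h2 : rt k (b ^ k) = b := rt_eq hk le_rfl (Nat.pow_lt_pow_left (Nat.lt_succ_self b) (by omega))
    rw [← h2]
    exact rt_mono hk hn
  filter_upwards [hrt.eventually h1] with n hn
  have h2 := (exists_rt hk n)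
  have h3 : n ≤ 2 ^ (2 * rt k n) := (h2.2.le).trans hn
  have h4 : 3 * rt k n ≤ rt k (3 ^ k * n) := by
    by_contra hc
    push Not at hc
    have h5 := (exists_rt hk (3 ^ k * n)).2
    have h6 : (rt k (3 ^ k * n) + 1) ^ k ≤ (3 * rt k n) ^ k := Nat.pow_le_pow_left hc k
    rw [mul_pow] at h6
    have h7 : 3 ^ k * rt k n ^ k ≤ 3 ^ k * n := Nat.mul_le_mul_left _ h2.1
    omega
  calc n * 2 ^ rt k n ≤ 2 ^ (2 * rt k n) * 2 ^ rt k n := Nat.mul_le_mul_right _ h3
    _ = 2 ^ (3 * rt k n) := by rw [← pow_add]; ring_nf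
    _ ≤ 2 ^ rt k (3 ^ k * n) := Nat.pow_le_pow_right (by norm_num) h4

theorem lower {h : ℕ → ℕ} {k : ℕ} (hk : 1 ≤ k)
    (hge : ∀ᶠ n in atTop, ∀ t : ℕ, t ^ k ≤ n → 2 ^ t ≤ h n) :
    DNeq (fun n => 2 ^ h n) ⊆ DSim 0 := by
  rw [dsim_eq]
  refine (dneq_mono (h := fun n => 2 ^ rt k n) (g := h) ?_).trans ?_
  · filter_upwards [hge] with n hn
    exact hn _ (exists_rt hk n).1
  · refine dneq_poly (G := fun n => 2 ^ rt k n) (h := fun n => 2 ^ n) (k := k) ?_ ?_ (sp_root hk) ?_
    · exact computable_of_ci (cpw 2 (crt (k := k)).computableIn)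
    · exact fun a b hab => Nat.pow_le_pow_right (by norm_num) (rt_mono hk hab)
    · refine Eventually.of_forall fun n => ?_
      have h2 : rt k (n ^ k) = n :=
        rt_eq hk le_rfl (Nat.pow_lt_pow_left (Nat.lt_succ_self n) (by omega))
      rw [h2]

end Pool.Agent.Y529.DC
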